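import Mathlib
import Pool.Agent.H92.TD.Defs
import Pool.Agent.H92.BF.BDefs
import Pool.Agent.H92.BG.GDefs
import Pool.Agent.H92.BG.Path

/-!
MP_5aa732_co, project BH92: odd-hole-free graphs in which no even hole has a hat with an antenna or a crown.
-/

set_option autoImplicit false
set_option linter.unusedSectionVars false
set_option linter.unusedVariables false

namespace Pool.Agent.H92.BH

open SimpleGraph Finset Pool.Agent.H92.TD Pool.Agent.H92.BF Pool.Agent.H92.BG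

/-- `d` behaves like the distance to `v`; `Z` is a stable set of neighbours of `v` which cannot be enlarged inside the
neighbourhood of a vertex complete to `Z`. -/
structure LayC {V : Type} (G : SimpleGraph V) (v : V) (d : V → ℕ) (Z : Finset V) : Prop where
  d0 : ∀ y, d y = 0 ↔ y = v
  d1 : ∀ x y, G.Adj x y → d x ≤ d y + 1
  d2 : ∀ y, d y ≠ 0 → ∃ x, G.Adj y x ∧ d x + 1 = d y
  Z1 : ∀ z ∈ Z, G.Adj v z
  Zs : ∀ z ∈ Z, ∀ z' ∈ Z, ¬ G.Adj z z'
  Zm : ∀ w k, (∀ z ∈ Z, G.Adj w z) → G.Adj w k → (∀ z ∈ Z, ¬ G.Adj z k) → k ∈ Z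

/-- No even hole has a hat `w` (adjacent to exactly two vertices of the hole, which are adjacent) with an antenna `u`
(adjacent to `w` and to no vertex of the hole). -/
def AntFree {V : Type} (G : SimpleGraph V) : Prop :=
  ∀ (k : ℕ) (f : SimpleGraph.cycleGraph (2 * k + 4) ↪g G) (i j : Fin (2 * k + 4)) (w u : V),
    (SimpleGraph.cycleGraph (2 * k + 4)).Adj i j → (∀ l, G.Adj w (f l) ↔ (l = i ∨ l = j)) →
    G.Adj w u → (∀ l, ¬ G.Adj u (f l)) → False

/-- No even hole has a crown: a hat `w` on the edge `i j` and two nonadjacent neighbours `z`, `z'` of `w`, the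
neighbour of `z` on the hole being `i` and that of `z'` being `j`. -/
def CrownFree {V : Type} (G : SimpleGraph V) : Prop :=
  ∀ (k : ℕ) (f : SimpleGraph.cycleGraph (2 * k + 4) ↪g G) (i j : Fin (2 * k + 4)) (w z z' : V),
    (SimpleGraph.cycleGraph (2 * k + 4)).Adj i j → (∀ l, G.Adj w (f l) ↔ (l = i ∨ l = j)) →
    G.Adj w z → G.Adj w z' → ¬ G.Adj z z' → (∀ l, G.Adj z (f l) ↔ l = i) →
    (∀ l, G.Adj z' (f l) ↔ l = j) → False

variable {V : Type} {G : SimpleGraph V} {v : V} {d : V → ℕ} {Z : Finset V}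

theorem LayC.nadj (h : LayC G v d Z) {x y : V} (hd : d x + 1 < d y) : ¬ G.Adj x y := by
  intro ha
  have := h.d1 y x ha.symm
  omega

theorem LayC.nadj' (h : LayC G v d Z) {x y : V} (hd : d y + 1 < d x) : ¬ G.Adj x y :=
  fun ha => h.nadj hd ha.symm

theorem ne_of_d {x y : V} (hd : d x ≠ d y) : x ≠ y :=
  fun e => hd (by rw [e])

theorem LayC.dv (h : LayC G v d Z) : d v = 0 := (h.d0 v).2 rfl

theorem LayC.one (h : LayC G v d Z) {y : V} (hy : d y = 1) : G.Adj v y := by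
  obtain ⟨x, hx, hxd⟩ := h.d2 y (by omega)
  have hx0 : x = v := (h.d0 x).1 (by omega)
  rw [← hx0]
  exact hx.symm

theorem LayC.dz (h : LayC G v d Z) {z : V} (hz : z ∈ Z) : d z = 1 := by
  have h1 := h.Z1 z hz
  have h2 := h.d1 z v h1.symm
  have h3 : d v = 0 := h.dv
  have h4 : d z ≠ 0 := by
    intro e
    have h5 := (h.d0 z).1 e
    rw [h5] at h1
    exact G.loopless.irrefl _ h1
  omega

/-- a set `K` and a family `Y` such that no two members of `Y` cross on `K` -/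
theorem bh_max [Fintype V] (Y : V → Prop) (K : Finset V) (hK : K.Nonempty)
    (hY : ∀ k ∈ K, ∃ y, Y y ∧ G.Adj y k)
    (hno : ∀ y y' k k1, Y y → Y y' → k ∈ K → k1 ∈ K → G.Adj y k1 → ¬ G.Adj y k → G.Adj y' k →
      ¬ G.Adj y' k1 → False) : ∃ y, Y y ∧ ∀ k ∈ K, G.Adj y k := by
  classical
  obtain ⟨k0, hk0⟩ := hK
  obtain ⟨y0, hy0, -⟩ := hY k0 hk0
  obtain ⟨y, hyS, hmax⟩ := (Finset.univ.filter (fun y => Y y)).exists_max_image
    (fun y => (K.filter (fun k => G.Adj y k)).card) ⟨y0, by simpa using hy0⟩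
  have hy : Y y := (Finset.mem_filter.1 hyS).2
  refine ⟨y, hy, ?_⟩
  intro k hk
  by_contra hyk
  obtain ⟨y', hy', hy'k⟩ := hY k hk
  have hle := hmax y' (by simpa using hy')
  have hnot : ∃ k1 ∈ K, G.Adj y k1 ∧ ¬ G.Adj y' k1 := by
    by_contra hcon
    have hcon' : ∀ k1 ∈ K, G.Adj y k1 → G.Adj y' k1 := by
      intro k1 h1 h2
      by_contra h3
      exact hcon ⟨k1, h1, h2, h3⟩
    have hss : K.filter (fun k => G.Adj y k) ⊂ K.filter (fun k => G.Adj y' k) := by
      rw [Finset.ssubset_iff_of_subset]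
      · exact ⟨k, mem_filter.2 ⟨hk, hy'k⟩, fun hh => hyk (mem_filter.1 hh).2⟩
      · intro x hx
        exact mem_filter.2 ⟨(mem_filter.1 hx).1, hcon' x (mem_filter.1 hx).1 (mem_filter.1 hx).2⟩
    exact absurd (card_lt_card hss) (not_lt.2 hle)
  obtain ⟨k1, hk1, hyk1, hy'k1⟩ := hnot
  exact hno y y' k k1 hy hy' hk hk1 hyk1 hyk hy'k hy'k1

theorem ip1 {a b : V} (h : G.Adj a b) : IP G 1 (fun j => if j = 0 then a else b) := by
  refine ⟨?_, ?_⟩
  · intro i j hij hj
    have ei : i = 0 := by omega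
    have ej : j = 1 := by omega
    subst ei
    subst ej
    simpa using h.ne
  · intro i j hij hj
    have ei : i = 0 := by omega
    have ej : j = 1 := by omega
    subst ei
    subst ej
    simpa using h

/-- the path reversed -/
theorem ip_rev {n : ℕ} {p : ℕ → V} (hp : IP G n p) : IP G n (fun j => p (n - j)) := by
  refine ⟨?_, ?_⟩
  · intro i j hij hj
    exact (hp.1 (n - j) (n - i) (by omega) (by omega)).symm
  · intro i j hij hj
    show G.Adj (p (n - i)) (p (n - j)) ↔ j = i + 1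
    rw [G.adj_comm, hp.2 (n - j) (n - i) (by omega) (by omega)]
    omega

theorem bh_ext {n : ℕ} {p : ℕ → V} (hp : IP G n p)
    {x x' : V} (h0 : G.Adj x (p 0)) (hn : G.Adj x' (p n))
    (hx : ∀ j, 0 < j → j ≤ n → ¬ G.Adj x (p j)) (hx' : ∀ j, j < n → ¬ G.Adj x' (p j))
    (hne : ∀ j, j ≤ n → x ≠ p j) (hne' : ∀ j, j ≤ n → x' ≠ p j) (hxx : x ≠ x')
    (hna : ¬ G.Adj x x') :
    ∃ r : ℕ → V, IP G (n + 2) r ∧ r 0 = x ∧ r (n + 2) = x' ∧
      ∀ j, 0 < j → j < n + 2 → r j = p (j - 1) := by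
  have hq := ip_pre hp h0 hx hne
  refine ⟨_, ip_app hq (x := x') ?_ ?_ ?_, ?_, ?_, ?_⟩
  · simp only [Nat.add_eq_zero_iff, one_ne_zero, and_false, if_false, Nat.add_sub_cancel]
    exact hn.symm
  · intro j hj
    by_cases hj0 : j = 0
    · rw [if_pos hj0]
      exact hna
    · rw [if_neg hj0]
      exact fun e => hx' (j - 1) (by omega) e.symm
  · intro j hj
    by_cases hj0 : j = 0
    · rw [if_pos hj0]
      exact hxx
    · rw [if_neg hj0]
      exact fun e => hne' (j - 1) (by omega) e.symm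
  · simp
  · have e : ¬ (n + 2 ≤ n + 1) := by omega
    simp only [if_neg e]
  · intro j hj0 hj
    have e1 : j ≤ n + 1 := by omega
    have e2 : j ≠ 0 := by omega
    simp only [if_pos e1, if_neg e2]

/-- the even hole `x, p 0, …, p n, x'` (`n` odd) -/
theorem bh_cyc {n : ℕ} {p : ℕ → V}
    (hp : IP G n p) (hodd : Odd n) {x x' : V} (hx0 : G.Adj x (p 0))
    (hx : ∀ j, 0 < j → j ≤ n → ¬ G.Adj x (p j)) (hxne : ∀ j, j ≤ n → x ≠ p j)
    (hxn : G.Adj x' (p n)) (hx' : ∀ j, j < n → ¬ G.Adj x' (p j)) (hxne' : ∀ j, j ≤ n → x' ≠ p j)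
    (hxx : G.Adj x x') :
    ∃ (k : ℕ) (f : SimpleGraph.cycleGraph (2 * k + 4) ↪g G) (i j : Fin (2 * k + 4)),
      (SimpleGraph.cycleGraph (2 * k + 4)).Adj i j ∧ f i = x ∧ f j = x' ∧
      ∀ l, l = i ∨ l = j ∨ ∃ r, r ≤ n ∧ f l = p r := by
  obtain ⟨k, hk⟩ := hodd
  subst hk
  have hq := ip_pre hp hx0 hx hxne
  have hcl := ip_close hq (w := x') (by omega)
    (by
      simp only [if_true]
      exact hxx.symm)
    (by
      have e : ¬ (2 * k + 1 + 1 = 0) := by omega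
      simp only [if_neg e]
      exact hxn)
    (by
      intro j hj0 hj
      have e : ¬ (j = 0) := by omega
      simp only [if_neg e]
      exact hx' _ (by omega))
    (by
      intro j hj
      by_cases e : j = 0
      · simp only [if_pos e]
        exact hxx.ne
      · simp only [if_neg e]
        exact (hxne' _ (by omega)).symm)
  have e4 : 2 * k + 1 + 1 + 2 = 2 * k + 4 := by ring
  rw [e4] at hcl
  obtain ⟨φ, hφ⟩ := hcl
  have f0 : ∀ l : Fin (2 * k + 4), l.val = 0 → φ l = x := by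
    intro l hl
    rw [hφ l, if_pos (by omega)]
    simp only [if_pos hl]
  have f1 : ∀ l : Fin (2 * k + 4), l.val = 2 * k + 3 → φ l = x' := by
    intro l hl
    rw [hφ l, if_neg (by omega)]
  have f2 : ∀ l : Fin (2 * k + 4), l.val ≠ 0 → l.val ≠ 2 * k + 3 →
      ∃ j, j ≤ 2 * k + 1 ∧ φ l = p j := by
    intro l h0 h1
    have hl := l.isLt
    refine ⟨l.val - 1, by omega, ?_⟩
    rw [hφ l, if_pos (by omega)]
    simp only [if_neg h0]
  refine ⟨k, φ, ⟨0, by omega⟩, ⟨2 * k + 3, by omega⟩, ?_, f0 _ rfl, f1 _ rfl, ?_⟩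
  · rw [← φ.map_adj_iff, f0 _ rfl, f1 _ rfl]
    exact hxx
  · intro l
    by_cases c0 : l.val = 0
    · exact Or.inl (Fin.ext c0)
    by_cases c1 : l.val = 2 * k + 3
    · exact Or.inr (Or.inl (Fin.ext c1))
    exact Or.inr (Or.inr (f2 l c0 c1))

theorem bh_ant (hh : AntFree G) {n : ℕ} {p : ℕ → V}
    (hp : IP G n p) (hodd : Odd n) {x x' w u : V} (hx0 : G.Adj x (p 0))
    (hx : ∀ j, 0 < j → j ≤ n → ¬ G.Adj x (p j)) (hxne : ∀ j, j ≤ n → x ≠ p j)
    (hxn : G.Adj x' (p n)) (hx' : ∀ j, j < n → ¬ G.Adj x' (p j)) (hxne' : ∀ j, j ≤ n → x' ≠ p j)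
    (hxx : G.Adj x x') (hwx : G.Adj w x) (hwx' : G.Adj w x') (hw : ∀ j, j ≤ n → ¬ G.Adj w (p j))
    (hwu : G.Adj w u) (hux : ¬ G.Adj u x)
    (hux' : ¬ G.Adj u x') (hu : ∀ j, j ≤ n → ¬ G.Adj u (p j)) : False := by
  obtain ⟨k, f, i, j, hij, hi, hj, hl⟩ := bh_cyc hp hodd hx0 hx hxne hxn hx' hxne' hxx
  refine hh k f i j w u hij ?_ hwu ?_
  · intro l
    constructor
    · intro ha
      rcases hl l with h1 | h1 | ⟨r, hr, e⟩
      · exact Or.inl h1
      · exact Or.inr h1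
      · rw [e] at ha
        exact absurd ha (hw r hr)
    · rintro (rfl | rfl)
      · rw [hi]
        exact hwx
      · rw [hj]
        exact hwx'
  · intro l
    rcases hl l with rfl | rfl | ⟨r, hr, e⟩
    · rw [hi]
      exact hux
    · rw [hj]
      exact hux'
    · rw [e]
      exact hu r hr

theorem bh_crown (hh : CrownFree G) {n : ℕ} {p : ℕ → V}
    (hp : IP G n p) (hodd : Odd n) {x x' w z z' : V} (hx0 : G.Adj x (p 0))
    (hx : ∀ j, 0 < j → j ≤ n → ¬ G.Adj x (p j)) (hxne : ∀ j, j ≤ n → x ≠ p j)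
    (hxn : G.Adj x' (p n)) (hx' : ∀ j, j < n → ¬ G.Adj x' (p j)) (hxne' : ∀ j, j ≤ n → x' ≠ p j)
    (hxx : G.Adj x x') (hwx : G.Adj w x) (hwx' : G.Adj w x') (hw : ∀ j, j ≤ n → ¬ G.Adj w (p j))
    (hwz : G.Adj w z) (hwz' : G.Adj w z') (hzz : ¬ G.Adj z z') (hzx : G.Adj z x)
    (hzx' : ¬ G.Adj z x') (hz : ∀ j, j ≤ n → ¬ G.Adj z (p j)) (hz'x' : G.Adj z' x')
    (hz'x : ¬ G.Adj z' x) (hz' : ∀ j, j ≤ n → ¬ G.Adj z' (p j)) : False := by
  obtain ⟨k, f, i, j, hij, hi, hj, hl⟩ := bh_cyc hp hodd hx0 hx hxne hxn hx' hxne' hxx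
  refine hh k f i j w z z' hij ?_ hwz hwz' hzz ?_ ?_
  · intro l
    constructor
    · intro ha
      rcases hl l with h1 | h1 | ⟨r, hr, e⟩
      · exact Or.inl h1
      · exact Or.inr h1
      · rw [e] at ha
        exact absurd ha (hw r hr)
    · rintro (rfl | rfl)
      · rw [hi]
        exact hwx
      · rw [hj]
        exact hwx'
  · intro l
    constructor
    · intro ha
      rcases hl l with h1 | h1 | ⟨r, hr, e⟩
      · exact h1
      · rw [h1, hj] at ha
        exact absurd ha hzx'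
      · rw [e] at ha
        exact absurd ha (hz r hr)
    · rintro rfl
      rw [hi]
      exact hzx
  · intro l
    constructor
    · intro ha
      rcases hl l with h1 | h1 | ⟨r, hr, e⟩
      · rw [h1, hi] at ha
        exact absurd ha hz'x
      · exact h1
      · rw [e] at ha
        exact absurd ha (hz' r hr)
    · rintro rfl
      rw [hj]
      exact hz'x'

end Pool.Agent.H92.BH
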