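import Mathlib
import Pool.Agent.H92.BH.HDefs

/-!
MP_5aa732_co, project BH92: the lemma on paths between two vertices of layer two, and the statement that no induced
path of odd length has its ends in layer i and its interior in higher layers.
-/

set_option autoImplicit false
set_option linter.unusedSectionVars false
set_option linter.unusedVariables false

namespace Pool.Agent.H92.BH

open SimpleGraph Finset Pool.Agent.H92.TD Pool.Agent.H92.BF Pool.Agent.H92.BG

variable {V : Type} {G : SimpleGraph V} {v : V} {d : V → ℕ} {Z : Finset V}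

theorem bh_up1 (h : LayC G v d Z) (ho : OddHoleFree G) : NoUp G d 1 := by
  intro n p hodd h3 hp hd0 hdn hin
  refine bg_odd ho hp hodd h3 (w := v) (h.one hd0) (h.one hdn) ?_ ?_
  · intro j h1 h2
    have := hin j h1 h2
    have := h.dv
    exact h.nadj (by omega)
  · intro j hj
    have e0 := h.dv
    rcases Nat.eq_zero_or_pos j with h4 | h4
    · rw [h4]
      exact ne_of_d (d := d) (by omega)
    · rcases Nat.lt_or_ge j n with h5 | h5
      · have := hin j h4 h5
        exact ne_of_d (d := d) (by omega)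
      · have h6 : j = n := by omega
        rw [h6]
        exact ne_of_d (d := d) (by omega)

/-- A path with ends in layer two and interior in higher layers: neighbours of the ends in layer one, which are not
common, are adjacent. -/
theorem bh_A (h : LayC G v d Z) (hu : NoUp G d 1) {n : ℕ} {p : ℕ → V} (hodd : Odd n)
    (hp : IP G n p) (hd0 : d (p 0) = 2) (hdn : d (p n) = 2)
    (hin : ∀ j, 0 < j → j < n → 2 < d (p j)) {a b : V} (ha : d a = 1) (hb : d b = 1)
    (ha0 : G.Adj a (p 0)) (han : ¬ G.Adj a (p n)) (hbn : G.Adj b (p n)) (hb0 : ¬ G.Adj b (p 0)) :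
    G.Adj a b := by
  by_contra hab
  have hge : ∀ j, j ≤ n → 2 ≤ d (p j) := by
    intro j hj
    rcases Nat.eq_zero_or_pos j with h4 | h4
    · rw [h4, hd0]
    · rcases Nat.lt_or_ge j n with h5 | h5
      · exact (hin j h4 h5).le
      · have h6 : j = n := by omega
        rw [h6, hdn]
  have hne : a ≠ b := by
    rintro rfl
    exact hb0 ha0
  have f1 : ∀ j, 0 < j → j ≤ n → ¬ G.Adj a (p j) := fun j h1 h2 => by
    rcases Nat.lt_or_ge j n with h5 | h5
    · have := hin j h1 h5
      exact h.nadj (by omega)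
    · have h6 : j = n := by omega
      rw [h6]
      exact han
  have f2 : ∀ j, j < n → ¬ G.Adj b (p j) := fun j h2 => by
    rcases Nat.eq_zero_or_pos j with h4 | h4
    · rw [h4]
      exact hb0
    · have := hin j h4 h2
      exact h.nadj (by omega)
  have b1 : ∀ j, j ≤ n → a ≠ p j := fun j hj => ne_of_d (d := d) (by have := hge j hj; omega)
  have b2 : ∀ j, j ≤ n → b ≠ p j := fun j hj => ne_of_d (d := d) (by have := hge j hj; omega)
  obtain ⟨r, hr, r0, rn, rj⟩ := bh_ext hp ha0 hbn f1 f2 b1 b2 hne hab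
  have h1n : 1 ≤ n := hodd.pos
  refine hu (n + 2) r (hodd.add_even (by decide)) (by omega) hr (by rw [r0, ha]) (by rw [rn, hb])
    (fun j h1 h2 => ?_)
  rw [rj j h1 h2]
  have := hge (j - 1) (by omega)
  omega

theorem bh_U (h : LayC G v d Z) (ha : AntFree G) (hc : CrownFree G) (hu : NoUp G d 1)
    {n : ℕ} {p : ℕ → V} (hodd : Odd n)
    (hp : IP G n p) (hd0 : d (p 0) = 2) (hdn : d (p n) = 2)
    (hin : ∀ j, 0 < j → j < n → 2 < d (p j)) {x x' : V} (hx : d x = 1) (hx' : d x' = 1)
    (hx0 : G.Adj x (p 0)) (hxn : ¬ G.Adj x (p n)) (hx'n : G.Adj x' (p n)) (hx'0 : ¬ G.Adj x' (p 0))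
    (hz : ∀ z ∈ Z, ¬ G.Adj z (p 0)) (hor : x' ∈ Z ∨ ∀ z ∈ Z, ¬ G.Adj z (p n)) : False := by
  have hv := h.dv
  have hge : ∀ j, j ≤ n → 2 ≤ d (p j) := by
    intro j hj
    rcases Nat.eq_zero_or_pos j with h4 | h4
    · rw [h4, hd0]
    · rcases Nat.lt_or_ge j n with h5 | h5
      · exact (hin j h4 h5).le
      · have h6 : j = n := by omega
        rw [h6, hdn]
  have hxx : G.Adj x x' := bh_A h hu hodd hp hd0 hdn hin hx hx' hx0 hxn hx'n hx'0
  have f1 : ∀ j, 0 < j → j ≤ n → ¬ G.Adj x (p j) := fun j h1 h2 => by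
    rcases Nat.lt_or_ge j n with h5 | h5
    · have := hin j h1 h5
      exact h.nadj (by omega)
    · have h6 : j = n := by omega
      rw [h6]
      exact hxn
  have f2 : ∀ j, j < n → ¬ G.Adj x' (p j) := fun j h2 => by
    rcases Nat.eq_zero_or_pos j with h4 | h4
    · rw [h4]
      exact hx'0
    · have := hin j h4 h2
      exact h.nadj (by omega)
  have b1 : ∀ j, j ≤ n → x ≠ p j := fun j hj => ne_of_d (d := d) (by have := hge j hj; omega)
  have b2 : ∀ j, j ≤ n → x' ≠ p j := fun j hj => ne_of_d (d := d) (by have := hge j hj; omega)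
  have hvp : ∀ j, j ≤ n → ¬ G.Adj v (p j) := fun j hj => h.nadj (by have := hge j hj; omega)
  have hzp : ∀ z ∈ Z, ¬ G.Adj z (p n) → ∀ j, j ≤ n → ¬ G.Adj z (p j) := by
    intro z hzZ hzn j hj
    have e := h.dz hzZ
    rcases Nat.eq_zero_or_pos j with h4 | h4
    · rw [h4]
      exact hz z hzZ
    · rcases Nat.lt_or_ge j n with h5 | h5
      · have := hin j h4 h5
        exact h.nadj (by omega)
      · have h6 : j = n := by omega
        rw [h6]
        exact hzn
  obtain ⟨z1, hz1, hxz1⟩ : ∃ z1 ∈ Z, ¬ G.Adj x z1 := by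
    by_contra hcon
    push Not at hcon
    have h1 := h.Zm x (p 0) hcon hx0 hz
    have h2 := h.dz h1
    omega
  have hz1n : ¬ G.Adj z1 (p n) := fun e =>
    hxz1 (bh_A h hu hodd hp hd0 hdn hin hx (h.dz hz1) hx0 hxn e (hz z1 hz1))
  by_cases c1 : G.Adj z1 x'
  · have hx'Z : x' ∉ Z := fun e => h.Zs z1 hz1 x' e c1
    have hor' : ∀ z ∈ Z, ¬ G.Adj z (p n) := by
      rcases hor with h1 | h1
      · exact absurd h1 hx'Z
      · exact h1
    obtain ⟨z2, hz2, hxz2⟩ : ∃ z2 ∈ Z, ¬ G.Adj x' z2 := by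
      by_contra hcon
      push Not at hcon
      have h1 := h.Zm x' (p n) hcon hx'n hor'
      have h2 := h.dz h1
      omega
    by_cases c2 : G.Adj z2 x
    · exact bh_crown hc hp hodd (z := z2) (z' := z1) hx0 f1 b1 hx'n f2 b2 hxx (h.one hx)
        (h.one hx') hvp (h.Z1 z2 hz2) (h.Z1 z1 hz1) (h.Zs z2 hz2 z1 hz1) c2
        (fun e => hxz2 e.symm) (hzp z2 hz2 (hor' z2 hz2)) c1 (fun e => hxz1 e.symm)
        (hzp z1 hz1 hz1n)
    · exact bh_ant ha hp hodd hx0 f1 b1 hx'n f2 b2 hxx (h.one hx) (h.one hx') hvp (h.Z1 z2 hz2) c2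
        (fun e => hxz2 e.symm) (hzp z2 hz2 (hor' z2 hz2))
  · exact bh_ant ha hp hodd hx0 f1 b1 hx'n f2 b2 hxx (h.one hx) (h.one hx') hvp (h.Z1 z1 hz1)
      (fun e => hxz1 e.symm) c1 (hzp z1 hz1 hz1n)

theorem bh_up2 (h : LayC G v d Z) (ho : OddHoleFree G) (ha : AntFree G) (hc : CrownFree G)
    (hu : NoUp G d 1) : NoUp G d 2 := by
  intro n p hodd h3 hp hd0 hdn hin
  have hne : ∀ a, d a = 1 → ∀ j, j ≤ n → p j ≠ a := by
    intro a ha j hj
    rcases Nat.eq_zero_or_pos j with h4 | h4
    · rw [h4]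
      exact ne_of_d (d := d) (by omega)
    · rcases Nat.lt_or_ge j n with h5 | h5
      · have := hin j h4 h5
        exact ne_of_d (d := d) (by omega)
      · have h6 : j = n := by omega
        rw [h6]
        exact ne_of_d (d := d) (by omega)
  have hcom : ∀ a, d a = 1 → G.Adj a (p 0) → ¬ G.Adj a (p n) := by
    intro a ha h0 hn
    refine bg_odd ho hp hodd h3 h0 hn ?_ (hne a ha)
    intro j h1 h2
    have := hin j h1 h2
    exact h.nadj (by omega)
  obtain ⟨x, hx0, hxd⟩ := h.d2 (p 0) (by omega)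
  obtain ⟨x', hxn, hxd'⟩ := h.d2 (p n) (by omega)
  have hx : d x = 1 := by omega
  have hx' : d x' = 1 := by omega
  by_cases c0 : ∃ z ∈ Z, G.Adj z (p 0)
  · obtain ⟨z, hz, hz0⟩ := c0
    have hzd := h.dz hz
    by_cases c1 : ∃ z' ∈ Z, G.Adj z' (p n)
    · obtain ⟨z', hz', hz'n⟩ := c1
      have hzd' := h.dz hz'
      exact h.Zs z hz z' hz' (bh_A h hu hodd hp hd0 hdn hin hzd hzd' hz0 (hcom z hzd hz0) hz'n
        (fun e => hcom z' hzd' e hz'n))
    · push Not at c1
      refine bh_U h ha hc hu (n := n) (p := fun j => p (n - j)) hodd (ip_rev hp) ?_ ?_ ?_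
        (x := x') (x' := z) hx' hzd ?_ ?_ ?_ ?_ ?_ (Or.inl hz)
      · simpa using hdn
      · simpa using hd0
      · intro j h1 h2
        exact hin (n - j) (by omega) (by omega)
      · simpa using hxn.symm
      · intro e
        have e' : G.Adj x' (p 0) := by simpa using e
        exact hcom x' hx' e' hxn.symm
      · simpa using hz0
      · intro e
        have e' : G.Adj z (p n) := by simpa using e
        exact c1 z hz e'
      · intro z1 hz1 e
        have e' : G.Adj z1 (p n) := by simpa using e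
        exact c1 z1 hz1 e'
  · push Not at c0
    by_cases c1 : ∃ z' ∈ Z, G.Adj z' (p n)
    · obtain ⟨z', hz', hz'n⟩ := c1
      have hzd' := h.dz hz'
      exact bh_U h ha hc hu hodd hp hd0 hdn hin hx hzd' hx0.symm (hcom x hx hx0.symm) hz'n
        (c0 z' hz') c0 (Or.inl hz')
    · push Not at c1
      exact bh_U h ha hc hu hodd hp hd0 hdn hin hx hx' hx0.symm (hcom x hx hx0.symm) hxn.symm
        (fun e => hcom x' hx' e hxn.symm) c0 (Or.inr c1)

/-- Adjacent vertices of layer `i + 1` have a common neighbour in layer `i` which has a neighbour in layer `i - 1`. -/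
theorem bh_w (h : LayC G v d Z) {i : ℕ} (hi : 1 ≤ i) (hk : CompK G d i) {x x' : V}
    (hx : d x = i + 1) (hx' : d x' = i + 1) (hxx : G.Adj x x') :
    ∃ w u, d w = i ∧ d u + 1 = i ∧ G.Adj w x ∧ G.Adj w x' ∧ G.Adj w u := by
  classical
  obtain ⟨w, hw, hwa⟩ := hk {x, x'} ⟨x, by simp⟩
      (by
        intro a ha b hb' hab
        simp only [Finset.coe_insert, Finset.coe_singleton, Set.mem_insert_iff,
          Set.mem_singleton_iff] at ha hb'
        rcases ha with rfl | rfl <;> rcases hb' with rfl | rfl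
        · exact absurd rfl hab
        · exact hxx
        · exact hxx.symm
        · exact absurd rfl hab)
      (by
        intro a ha
        simp only [Finset.mem_insert, Finset.mem_singleton] at ha
        rcases ha with rfl | rfl
        · exact hx
        · exact hx')
  obtain ⟨u, hwu, hu⟩ := h.d2 w (by omega)
  exact ⟨w, u, hw, by omega, hwa x (by simp), hwa x' (by simp), hwu⟩

theorem bh_upS (h : LayC G v d Z) (ho : OddHoleFree G) (ha : AntFree G) {i : ℕ} (hi : 1 ≤ i)
    (hk : CompK G d i) (hu : NoUp G d (i + 1)) : NoUp G d (i + 2) := by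
  intro n p hodd h3 hp hd0 hdn hin
  have hge : ∀ j, j ≤ n → i + 2 ≤ d (p j) := by
    intro j hj
    rcases Nat.eq_zero_or_pos j with h4 | h4
    · rw [h4, hd0]
    · rcases Nat.lt_or_ge j n with h5 | h5
      · exact (hin j h4 h5).le
      · have h6 : j = n := by omega
        rw [h6, hdn]
  obtain ⟨x, hx0, hxd⟩ := h.d2 (p 0) (by omega)
  obtain ⟨x', hxn, hxd'⟩ := h.d2 (p n) (by omega)
  have a1 : d x = i + 1 := by omega
  have a2 : d x' = i + 1 := by omega
  have b1 : ∀ j, j ≤ n → x ≠ p j := fun j hj => ne_of_d (d := d) (by have := hge j hj; omega)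
  have b2 : ∀ j, j ≤ n → x' ≠ p j := fun j hj => ne_of_d (d := d) (by have := hge j hj; omega)
  have c1 : ∀ j, 0 < j → j < n → ¬ G.Adj x (p j) := fun j h1 h2 =>
    h.nadj (by have := hin j h1 h2; omega)
  have c2 : ∀ j, 0 < j → j < n → ¬ G.Adj x' (p j) := fun j h1 h2 =>
    h.nadj (by have := hin j h1 h2; omega)
  by_cases e1 : G.Adj x (p n)
  · exact bg_odd ho hp hodd h3 hx0.symm e1 c1 (fun j hj => (b1 j hj).symm)
  by_cases e2 : G.Adj x' (p 0)
  · exact bg_odd ho hp hodd h3 e2 hxn.symm c2 (fun j hj => (b2 j hj).symm)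
  have e3 : x ≠ x' := by
    rintro rfl
    exact e1 hxn.symm
  have f1 : ∀ j, 0 < j → j ≤ n → ¬ G.Adj x (p j) := fun j h1 h2 => by
    rcases Nat.lt_or_ge j n with h5 | h5
    · exact c1 j h1 h5
    · have h6 : j = n := by omega
      rw [h6]
      exact e1
  have f2 : ∀ j, j < n → ¬ G.Adj x' (p j) := fun j h2 => by
    rcases Nat.eq_zero_or_pos j with h4 | h4
    · rw [h4]
      exact e2
    · exact c2 j h4 h2
  by_cases e4 : G.Adj x x'
  · obtain ⟨w, u, hwd, hud, hwx, hwx', hwu⟩ := bh_w h hi hk a1 a2 e4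
    exact bh_ant ha hp hodd hx0.symm f1 b1 hxn.symm f2 b2 e4 hwx hwx'
      (fun j hj => h.nadj (by have := hge j hj; omega)) hwu
      (h.nadj (by omega)) (h.nadj (by omega))
      (fun j hj => h.nadj (by have := hge j hj; omega))
  · obtain ⟨r, hr, r0, rn, rj⟩ := bh_ext hp hx0.symm hxn.symm f1 f2 b1 b2 e3 e4
    refine hu (n + 2) r (hodd.add_even (by decide)) (by omega) hr (by rw [r0, a1]) (by rw [rn, a2])
      (fun j h1 h2 => ?_)
    rw [rj j h1 h2]
    have := hge (j - 1) (by omega)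
    omega

end Pool.Agent.H92.BH
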