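import Mathlib
import Pool.Agent.H92.TD.Conn
import Pool.Agent.H92.TF.FAsm
import Pool.Agent.H92.BH.HDefs
import Pool.Agent.H92.BH.HU
import Pool.Agent.H92.BH.HComp

/-!
MP_5aa732_co, project BH92: no minimal counterexample, and assembly.
-/

set_option autoImplicit false
set_option linter.unusedSectionVars false
set_option linter.unusedVariables false

namespace Pool.Agent.H92.BH

open SimpleGraph Finset Pool.Agent.H92.TD Pool.Agent.H92.TF Pool.Agent.H92.BF Pool.Agent.H92.BG

theorem bh_no {V : Type} [Fintype V] {G : SimpleGraph V} {m : ℕ} (h : MinCE G m) (ha : AntFree G)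
    (hc : CrownFree G) (ho : OddHoleFree G) : False := by
  classical
  have hone := h.one
  obtain ⟨b0, K0, hK0, -⟩ := h.bad (fun _ => true)
  obtain ⟨v0, -⟩ : K0.Nonempty := by
    rw [← Finset.card_pos, hK0.2]
    omega
  obtain ⟨P, hP⟩ : ∃ P : Finset (V × Finset V), P = univ.filter (fun p : V × Finset V =>
      (∀ z ∈ p.2, G.Adj p.1 z) ∧ ∀ z ∈ p.2, ∀ z' ∈ p.2, ¬ G.Adj z z') := ⟨_, rfl⟩
  have hmem : ∀ (w : V) (Z : Finset V), (w, Z) ∈ P ↔
      (∀ z ∈ Z, G.Adj w z) ∧ ∀ z ∈ Z, ∀ z' ∈ Z, ¬ G.Adj z z' := by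
    intro w Z
    rw [hP, mem_filter]
    exact ⟨fun h => h.2, fun h => ⟨mem_univ _, h⟩⟩
  have h0 : (v0, (∅ : Finset V)) ∈ P := by
    rw [hmem]
    exact ⟨fun z hz => absurd hz (Finset.notMem_empty z), fun z hz => absurd hz (Finset.notMem_empty z)⟩
  obtain ⟨⟨v, Z⟩, hvZ, hmax0⟩ := Finset.exists_max_image P (fun p => p.2.card) ⟨_, h0⟩
  obtain ⟨hZ, hZs⟩ := (hmem v Z).1 hvZ
  have hmax : ∀ (w : V) (Z' : Finset V), (∀ z ∈ Z', G.Adj w z) → (∀ z ∈ Z', ∀ z' ∈ Z', ¬ G.Adj z z') →
      Z'.card ≤ Z.card := fun w Z' h1 h2 => hmax0 (w, Z') ((hmem w Z').2 ⟨h1, h2⟩)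
  have hZm : ∀ w k, (∀ z ∈ Z, G.Adj w z) → G.Adj w k → (∀ z ∈ Z, ¬ G.Adj z k) → k ∈ Z := by
    intro w k h1 h2 h3
    by_contra hkZ
    have h4 := hmax w (insert k Z) (fun z hz => by
      rcases Finset.mem_insert.1 hz with rfl | hz
      · exact h2
      · exact h1 z hz) (fun z hz z' hz' => by
      rcases Finset.mem_insert.1 hz with hz1 | hz1
      · rcases Finset.mem_insert.1 hz' with hz2 | hz2
        · rw [hz1, hz2]
          exact G.loopless.irrefl _
        · rw [hz1]
          exact fun e => h3 z' hz2 e.symm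
      · rcases Finset.mem_insert.1 hz' with hz2 | hz2
        · rw [hz2]
          exact h3 z hz1
        · exact hZs z hz1 z' hz2)
    rw [Finset.card_insert_of_notMem hkZ] at h4
    omega
  obtain ⟨d, d0', d1, d2⟩ := exists_layer (connected_of h) {v} (Finset.singleton_nonempty v)
  have d0 : ∀ y, d y = 0 ↔ y = v := fun y => by rw [d0', Finset.mem_singleton]
  have hL : LayC G v d Z := ⟨d0, d1, d2, hZ, hZs, hZm⟩
  obtain ⟨b, K, hK, hbK⟩ := h.bad (fun x => decide (Even (d x)))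
  obtain ⟨k0, hk0⟩ : K.Nonempty := by
    rw [← Finset.card_pos, hK.2]
    omega
  have hall : ∀ k ∈ K, d k = d k0 := by
    intro k hk
    by_cases hkk : k = k0
    · rw [hkk]
    · have had : G.Adj k k0 := hK.1 hk hk0 hkk
      have e1 := d1 k k0 had
      have e2 := d1 k0 k had.symm
      have e3 : decide (Even (d k)) = decide (Even (d k0)) := (hbK k hk).trans (hbK k0 hk0).symm
      have e4 : Even (d k) ↔ Even (d k0) := by simpa using e3
      rw [Nat.even_iff, Nat.even_iff] at e4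
      omega
  have hno : ∀ x, ¬ ∀ k ∈ K, G.Adj x k := fun x hx => h.free _ (clique_insert hK hx)
  rcases Nat.lt_or_ge (d k0) 2 with hj | hj
  · rcases Nat.lt_or_ge (d k0) 1 with hj0 | hj1
    · have hsub : K ⊆ {v} := by
        intro k hk
        rw [Finset.mem_singleton]
        exact (d0 k).1 (by rw [hall k hk]; omega)
      have h5 := Finset.card_le_card hsub
      rw [hK.2, Finset.card_singleton] at h5
      omega
    · exact hno v (fun k hk => hL.one (by rw [hall k hk]; omega))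
  · obtain ⟨x, -, hx⟩ := (bh_all hL ho ha hc (d k0 - 1) (by omega)).1 K ⟨k0, hk0⟩ hK.1
      (fun k hk => by rw [hall k hk]; omega)
    exact hno x hx

theorem AntFree_induce {V : Type} {G : SimpleGraph V} (s : Set V) (hk : AntFree G) :
    AntFree (G.induce s) := by
  intro k f i j w u hij hw hwu hu
  exact hk k ((SimpleGraph.Embedding.induce s).comp f) i j w u hij hw hwu hu

theorem CrownFree_induce {V : Type} {G : SimpleGraph V} (s : Set V) (hk : CrownFree G) :
    CrownFree (G.induce s) := by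
  intro k f i j w z z' hij hw hwz hwz' hzz hz hz'
  exact hk k ((SimpleGraph.Embedding.induce s).comp f) i j w z z' hij hw hwz hwz' hzz hz hz'

theorem core_bh (m : ℕ) (hm : 1 ≤ m) (V : Type) [Fintype V] (G : SimpleGraph V)
    (hf : G.CliqueFree (m + 2)) (ho : OddHoleFree G) (ha : AntFree G) (hc : CrownFree G) :
    ∃ c : V → Bool, ∀ K : Finset V, G.IsNClique (m + 1) K → ∀ b : Bool, ¬ ∀ x ∈ K, c x = b := by
  refine core_gen2 (fun V G => AntFree G ∧ CrownFree G ∧ OddHoleFree G) ?_ ?_ ?_ m hm V G hf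
    ⟨ha, hc, ho⟩
  · intro V G s hP
    exact ⟨AntFree_induce s hP.1, CrownFree_induce s hP.2.1, oddHoleFree_induce' s hP.2.2⟩
  · intro V _ G m hP hM hs
    exact (bh_no hM hP.1 hP.2.1 hP.2.2).elim
  · intro V _ G hP
    exact hP.2.2

theorem hasm_back {V : Type} [Fintype V] {G : SimpleGraph V} [DecidableEq V] (ho : OddHoleFree G)
    (ha : AntFree G) (hc : CrownFree G) (S : Finset V) (hS : ∃ u ∈ S, ∃ v ∈ S, G.Adj u v) :
    ∃ A : Finset V, A ⊆ S ∧
      (∀ T : Finset V, T ⊆ A → G.IsClique (T : Set V) →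
          ∃ T' : Finset V, T' ⊆ S ∧ G.IsClique (T' : Set V) ∧ T.card < T'.card) ∧
      (∀ T : Finset V, T ⊆ S \ A → G.IsClique (T : Set V) →
          ∃ T' : Finset V, T' ⊆ S ∧ G.IsClique (T' : Set V) ∧ T.card < T'.card) := by
  refine asm_back_gen (fun _ _ => True) S ?_ hS
  intro m hm hf _
  exact core_bh m hm _ _ hf (oddHoleFree_induce _ ho) (AntFree_induce _ ha) (CrownFree_induce _ hc)

end Pool.Agent.H92.BH
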